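import Pool.Agent.Z83K.Stm

/-!
# Shared lemmas: the closing form near infinity, continuous roots
-/

set_option autoImplicit false

open Filter Topology

namespace Pool.Agent.Z83K

/-! ### symmetries -/

theorem EE_sym (A k2 k3 x2 y2 x3 y3 : ℂ) : EE A k3 k2 x3 y3 x2 y2 = EE A k2 k3 x2 y2 x3 y3 := by
  unfold EE; ring

theorem EE_mir (A k2 k3 x2 y2 x3 y3 : ℂ) : EE A k2 k3 y2 x2 y3 x3 = EE A k2 k3 x2 y2 x3 y3 := by
  unfold EE; ring

theorem EH_sym (A k2 k3 : ℂ) (P Q : HPt) : EH A k3 k2 Q P = EH A k2 k3 P Q := by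
  unfold EH; ring

/-- the form at finite points -/
theorem EH_aff (A k2 k3 x2 y2 x3 y3 a a' b b' : ℂ) :
    EH A k2 k3 ⟨x2 * a, a, y2 * a', a'⟩ ⟨x3 * b, b, y3 * b', b'⟩ =
      (a * a' * b * b') ^ 2 * EE A k2 k3 x2 y2 x3 y3 := by
  unfold EH EE; ring

theorem hp1_aff (u v p q B r : ℂ) (hp : p ≠ 0) :
    hp1 u v p q B r = ⟨(u + B * p / r) * 1, 1, (v + r / p) * p, p⟩ := by
  unfold hp1
  congr 1
  · ring
  · field_simp

theorem hp2_aff (u v p q B r : ℂ) (hq : q ≠ 0) :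
    hp2 u v p q B r = ⟨(u + r / q) * q, q, (v + B * q / r) * 1, 1⟩ := by
  unfold hp2
  congr 1
  · field_simp
  · ring

/-- the product in terms of the affine form -/
theorem Fr_EE (P : Par) (u0 v0 u2 v2 u3 v3 r2 r3 : ℂ) (hp2' : u2 - u0 ≠ 0) (hq2 : v2 - v0 ≠ 0)
    (hp3 : u3 - u0 ≠ 0) (hq3 : v3 - v0 ≠ 0) :
    Fr P u0 v0 u2 v2 u3 v3 r2 r3 =
      ((u2 - u0) * (v2 - v0) * (u3 - u0) * (v3 - v0)) ^ 4 *
      (EE P.A1 (P.A1 - P.F2) (P.A1 - P.F3) (u0 + P.B2 * (u2 - u0) / r2) (v0 + r2 / (u2 - u0))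
          (u0 + P.B3 * (u3 - u0) / r3) (v0 + r3 / (u3 - u0)) *
        EE P.A1 (P.A1 - P.F2) (P.A1 - P.F3) (u0 + P.B2 * (u2 - u0) / r2) (v0 + r2 / (u2 - u0))
          (u0 + r3 / (v3 - v0)) (v0 + P.B3 * (v3 - v0) / r3) *
        EE P.A1 (P.A1 - P.F2) (P.A1 - P.F3) (u0 + r2 / (v2 - v0)) (v0 + P.B2 * (v2 - v0) / r2)
          (u0 + P.B3 * (u3 - u0) / r3) (v0 + r3 / (u3 - u0)) *
        EE P.A1 (P.A1 - P.F2) (P.A1 - P.F3) (u0 + r2 / (v2 - v0)) (v0 + P.B2 * (v2 - v0) / r2)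
          (u0 + r3 / (v3 - v0)) (v0 + P.B3 * (v3 - v0) / r3)) := by
  unfold Fr
  rw [hp1_aff _ _ _ _ _ _ hp2', hp1_aff _ _ _ _ _ _ hp3, hp2_aff _ _ _ _ _ _ hq2,
    hp2_aff _ _ _ _ _ _ hq3, EH_aff, EH_aff, EH_aff, EH_aff]
  ring

/-! ### the closing form near infinity

Types of points at `τ → 0`: `f` = finite `(x, y)`; `N = (x + τ α, Y / τ)`; `A = (τ X, y)`. For the
behaviour at `D = 0` use the mirror images `(Y / τ, x + τ α)`, `(y, τ X)` and `EE_mir`. -/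

theorem e_fN (A k2 k3 x2 y2 X Y τ : ℂ) (hτ : τ ≠ 0) :
    EE A k2 k3 x2 y2 X (Y / τ) =
      (((k2 + x2 * y2) * X * τ - (k3 * τ + X * Y) * x2) *
          (y2 * (k3 * τ + X * Y) - Y * (k2 + x2 * y2)) - A * (y2 * X * τ - x2 * Y) ^ 2) / τ ^ 2 := by
  unfold EE; field_simp

theorem e_NN (A k2 k3 x α2 α3 Y2 Y3 τ : ℂ) (hτ : τ ≠ 0) :
    EE A k2 k3 (x + τ * α2) (Y2 / τ) (x + τ * α3) (Y3 / τ) =
      ((τ * (k2 * (x + τ * α3) - k3 * (x + τ * α2)) + (x + τ * α2) * (x + τ * α3) * (Y2 - Y3)) *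
          (Y2 * k3 - Y3 * k2 + Y2 * Y3 * (α3 - α2)) -
        A * (Y2 * (x + τ * α3) - (x + τ * α2) * Y3) ^ 2) / τ ^ 2 := by
  unfold EE; field_simp; ring

theorem e_BB (A k2 k3 α2 α3 η2 η3 τ : ℂ) (hτ : τ ≠ 0) :
    EE A k2 k3 (1 + τ * α2) ((1 + τ * η2) / τ) (1 + τ * α3) ((1 + τ * η3) / τ) =
      ((k2 * (1 + τ * α3) - k3 * (1 + τ * α2) + (1 + τ * α2) * (1 + τ * α3) * (η2 - η3)) *
          ((1 + τ * η2) * k3 - (1 + τ * η3) * k2 + (1 + τ * η2) * (1 + τ * η3) * (α3 - α2)) -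
        τ * A * ((η2 + α3 - α2 - η3) + τ * (η2 * α3 - α2 * η3)) ^ 2) / τ := by
  unfold EE; field_simp; ring

theorem e_NA (A k2 k3 X2 Y2 X3 y3 τ : ℂ) (hτ : τ ≠ 0) :
    EE A k2 k3 X2 (Y2 / τ) (τ * X3) y3 =
      (((k2 * τ + X2 * Y2) * X3 - (k3 + τ * X3 * y3) * X2) *
          (Y2 * (k3 + τ * X3 * y3) - y3 * (k2 * τ + X2 * Y2)) - τ * A * (Y2 * X3 - X2 * y3) ^ 2) /
        τ := by
  unfold EE; field_simp

theorem e_AA (A k2 k3 X2 y2 X3 y3 τ : ℂ) :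
    EE A k2 k3 (τ * X2) y2 (τ * X3) y3 =
      τ * (((k2 + τ * X2 * y2) * X3 - (k3 + τ * X3 * y3) * X2) *
          (y2 * (k3 + τ * X3 * y3) - y3 * (k2 + τ * X2 * y2)) - τ * A * (y2 * X3 - X2 * y3) ^ 2) := by
  unfold EE; ring

/-! ### continuous roots -/

theorem sq_sq (x : ℝ) : sq x ^ 2 = (x : ℂ) := by
  unfold sq
  rcases le_total 0 x with h | h
  · rw [Real.sqrt_eq_zero_of_nonpos (by linarith : -x ≤ 0)]
    have := Real.sq_sqrt h
    push_cast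
    rw [mul_zero, add_zero, ← Complex.ofReal_pow, this]
  · rw [Real.sqrt_eq_zero_of_nonpos h]
    have := Real.sq_sqrt (by linarith : 0 ≤ -x)
    push_cast
    rw [zero_add, mul_pow, Complex.I_sq, ← Complex.ofReal_pow, this]
    push_cast; ring

theorem sq_cont : Continuous sq := by
  unfold sq; fun_prop

theorem rc_root (B E t : ℝ) (h : B ≠ E) :
    rc B E t ^ 2 - ((t + B - E : ℝ) : ℂ) * rc B E t + ((B * t : ℝ) : ℂ) = 0 := by
  have hs := sq_sq ((t + (B - E)) ^ 2 - 4 * B * t)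
  have hg : ((Real.sign (B - E) : ℝ) : ℂ) ^ 2 = 1 := by
    rcases lt_or_gt_of_ne (sub_ne_zero.mpr h) with h1 | h1
    · rw [Real.sign_of_neg h1]; norm_num
    · rw [Real.sign_of_pos h1]; norm_num
  unfold rc
  generalize hσ : sq ((t + (B - E)) ^ 2 - 4 * B * t) = σ at *
  generalize hε : ((Real.sign (B - E) : ℝ) : ℂ) = ε at *
  have : ((((t + (B - E) : ℝ) : ℂ) + ε * σ) / 2) ^ 2 -
      ((t + B - E : ℝ) : ℂ) * ((((t + (B - E) : ℝ) : ℂ) + ε * σ) / 2) + ((B * t : ℝ) : ℂ) =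
      (ε ^ 2 * σ ^ 2 - ((t + (B - E) : ℝ) : ℂ) ^ 2 + 4 * ((B * t : ℝ) : ℂ)) / 4 := by
    push_cast; ring
  rw [this, hg, hs]
  push_cast; ring

theorem rc_ne (B E t : ℝ) (hB : 0 < B) (h : B ≠ E) : rc B E t ≠ 0 := by
  intro h0
  have h1 := rc_root B E t h
  rw [h0] at h1
  have h2 : B * t = 0 := by
    have : ((B * t : ℝ) : ℂ) = 0 := by linear_combination h1
    exact_mod_cast this
  have ht : t = 0 := (mul_eq_zero.mp h2).resolve_left hB.ne'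
  subst ht
  unfold rc at h0
  have hsq : sq ((0 + (B - E)) ^ 2 - 4 * B * 0) = ((|B - E| : ℝ) : ℂ) := by
    unfold sq
    rw [show (0 + (B - E)) ^ 2 - 4 * B * 0 = (B - E) ^ 2 by ring, Real.sqrt_sq_eq_abs,
      Real.sqrt_eq_zero_of_nonpos (by nlinarith [sq_nonneg (B - E)])]
    simp
  rw [hsq, zero_add] at h0
  have h3 : Real.sign (B - E) * |B - E| = B - E := by
    rcases lt_or_gt_of_ne (sub_ne_zero.mpr h) with h1 | h1
    · rw [Real.sign_of_neg h1, abs_of_neg h1]; ring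
    · rw [Real.sign_of_pos h1, abs_of_pos h1]; ring
  rw [← Complex.ofReal_mul, h3] at h0
  have h4 : (((B - E) : ℝ) : ℂ) = 0 := by linear_combination h0
  exact sub_ne_zero.mpr h (by exact_mod_cast h4)

theorem rc_cont (B E : ℝ) : Continuous (rc B E) := by
  unfold rc
  have := sq_cont
  fun_prop

/-- the small root of `w ρ ^ 2 - (1 + g w) ρ + B` -/
noncomputable def rh (B g w : ℝ) : ℝ := 2 * B / ((1 + g * w) + Real.sqrt ((1 + g * w) ^ 2 - 4 * B * w))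

theorem rh_zero (B g : ℝ) : rh B g 0 = B := by
  unfold rh
  norm_num

theorem rh_cont (B g : ℝ) : ContinuousAt (rh B g) 0 := by
  unfold rh
  apply ContinuousAt.div
  · fun_prop
  · fun_prop
  · norm_num

theorem rh_root (B g : ℝ) : ∀ᶠ w in 𝓝 (0 : ℝ), w * rh B g w ^ 2 - (1 + g * w) * rh B g w + B = 0 := by
  have h1 : ∀ᶠ w in 𝓝 (0 : ℝ), 0 < (1 + g * w) ^ 2 - 4 * B * w := by
    have : ContinuousAt (fun w : ℝ => (1 + g * w) ^ 2 - 4 * B * w) 0 := by fun_prop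
    exact this.eventually (lt_mem_nhds (by norm_num))
  have h2 : ∀ᶠ w in 𝓝 (0 : ℝ), 0 < 1 + g * w := by
    have : ContinuousAt (fun w : ℝ => 1 + g * w) 0 := by fun_prop
    exact this.eventually (lt_mem_nhds (by norm_num))
  filter_upwards [h1, h2] with w h1 h2
  unfold rh
  have h3 := Real.sq_sqrt h1.le
  have h4 := Real.sqrt_nonneg ((1 + g * w) ^ 2 - 4 * B * w)
  generalize Real.sqrt ((1 + g * w) ^ 2 - 4 * B * w) = s at *
  obtain ⟨L, hL⟩ : ∃ L, L = (1 + g * w) + s := ⟨_, rfl⟩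
  have h5 : L ≠ 0 := by rw [hL]; positivity
  rw [← hL]
  have h6 : w * (2 * B / L) ^ 2 - (1 + g * w) * (2 * B / L) + B =
      B * (4 * B * w - 2 * (1 + g * w) * L + L ^ 2) / L ^ 2 := by
    field_simp
    ring
  rw [h6, hL, show 4 * B * w - 2 * (1 + g * w) * ((1 + g * w) + s) + ((1 + g * w) + s) ^ 2 = 0 by
    linear_combination h3]
  simp

theorem ki_zero (A C : ℝ) : ki A C 0 = 1 := by
  unfold ki
  norm_num

theorem ki_cont (A C : ℝ) : Continuous (ki A C) := by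
  unfold ki
  fun_prop

theorem ki_root (A C : ℝ) :
    ∀ᶠ τ in 𝓝 (0 : ℝ), ki A C τ ^ 2 - (1 + (A - C) * τ) * ki A C τ + A * τ = 0 := by
  have h1 : ∀ᶠ τ in 𝓝 (0 : ℝ), 0 < (1 + (A - C) * τ) ^ 2 - 4 * A * τ := by
    have : ContinuousAt (fun τ : ℝ => (1 + (A - C) * τ) ^ 2 - 4 * A * τ) 0 := by fun_prop
    exact this.eventually (lt_mem_nhds (by norm_num))
  filter_upwards [h1] with τ h1
  unfold ki
  have h3 := Real.sq_sqrt h1.le
  generalize Real.sqrt ((1 + (A - C) * τ) ^ 2 - 4 * A * τ) = s at *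
  linear_combination (1 / 4) * h3

theorem kz_zero (A C : ℝ) (h : A ≠ C) : kz A C 0 = A - C := by
  unfold kz rt disc
  rw [show (A - C + 0) ^ 2 - 4 * A * 0 = (A - C) ^ 2 by ring, Real.sqrt_sq_eq_abs]
  rcases lt_or_gt_of_ne (sub_ne_zero.mpr h) with h1 | h1
  · rw [Real.sign_of_neg h1, abs_of_neg h1]; ring
  · rw [Real.sign_of_pos h1, abs_of_pos h1]; ring

theorem kz_cont (A C : ℝ) : Continuous (kz A C) := by
  unfold kz rt disc
  fun_prop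

theorem kz_root (A C : ℝ) (h : A ≠ C) :
    ∀ᶠ D in 𝓝 (0 : ℝ), kz A C D ^ 2 - (A - C + D) * kz A C D + A * D = 0 := by
  have h1 : ∀ᶠ D in 𝓝 (0 : ℝ), 0 < disc A C D := by
    have : ContinuousAt (disc A C) 0 := by unfold disc; fun_prop
    refine this.eventually (lt_mem_nhds ?_)
    unfold disc
    have := sq_pos_of_ne_zero (sub_ne_zero.mpr h)
    simpa using this
  have hg : Real.sign (A - C) ^ 2 = 1 := by
    rcases lt_or_gt_of_ne (sub_ne_zero.mpr h) with h1 | h1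
    · rw [Real.sign_of_neg h1]; norm_num
    · rw [Real.sign_of_pos h1]; norm_num
  filter_upwards [h1] with D h1
  have h3 := Real.sq_sqrt h1.le
  unfold kz rt
  generalize Real.sqrt (disc A C D) = s at *
  generalize Real.sign (A - C) = ε at *
  unfold disc at h3
  linear_combination (1 / 4) * s ^ 2 * hg + (1 / 4) * h3

end Pool.Agent.Z83K
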