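import Mathlib

/-!
# MP_01c1f4_co, frozen statement S06894 (negative answer): statements of the pieces

`G = K_{4,4}` minus three disjoint edges. Vertices `a0 .. a3` are `0 .. 3`, `b0 .. b3` are `4 .. 7`;
the non-edges are `a1 b1`, `a2 b3`, `a3 b2`. Squared lengths (in the order of `ed`):
`A0 = a0b0, C0 = a0b1, B2 = a0b2, B3 = a0b3, A1 = a1b0, F2 = a1b2, F3 = a1b3,
A2 = a2b0, C2 = a2b1, E2 = a2b2, A3 = a3b0, C3 = a3b1, E3 = a3b3`.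

Null coordinates: points `(z, w)`, squared distance `Δz Δw`. Gauge `b0 = (0,0)`, `b1 = (1, D)`.
For real `D` outside the three intervals `disc_i < 0` the points `a_i = (u_i, v_i)`, `i = 0, 2, 3`, are
real: `v_i` is a root of `v ^ 2 - (A_i - C_i + D) v + A_i D`, and `u_i = (other root) / D`.
`b_j` (`j = 2, 3`) is adjacent to `a0`, `a_j`, `a1`. With `p = u_j - u_0`, `q = v_j - v_0`, `t = p q` and `r`
a root of `r ^ 2 - (t + B_j - E_j) r + B_j t` the two positions of `b_j` are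
`(u0 + B_j p / r, v0 + r / p)` and `(u0 + r / q, v0 + B_j q / r)`.
`EE = 0` says that `a1` exists. `Fh` is the product of the (homogenised) `EE` over the `2 x 2` positions
of `b2, b3`, `Fs` the same for the sheet given by signs `s_i`, and `PP` the product over the four sheets
with `s0 = 1`. The main point: if there were no solution, `PP` would have no zeros on
`(-∞, 0) ∪ (0, m] ∪ [M, ∞)`, would be positive at `m` and `M` (two roots merge: a square), would change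
its sign at `D = 0` (order `-11`) and not at `D = ∞` (order `18`): contradiction.
-/

set_option autoImplicit false

open Filter Topology

namespace Pool.Agent.Z83K

/-! ### the graph -/

/-- the thirteen edges -/
def ed : Fin 13 → Fin 8 × Fin 8 :=
  ![(0, 4), (0, 5), (0, 6), (0, 7), (1, 4), (1, 6), (1, 7), (2, 4), (2, 5), (2, 6), (3, 4), (3, 5), (3, 7)]

/-- the graph -/
def GG : SimpleGraph (Fin 8) := SimpleGraph.fromRel (fun i j => ∃ e, ed e = (i, j))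

/-! ### the parameters -/

/-- the squared lengths -/
structure Par where
  (A0 C0 B2 B3 A1 F2 F3 A2 C2 E2 A3 C3 E3 : ℝ)

/-- the vector of the squared lengths, in the order of `ed` -/
def Par.d (P : Par) : Fin 13 → ℝ :=
  ![P.A0, P.C0, P.B2, P.B3, P.A1, P.F2, P.F3, P.A2, P.C2, P.E2, P.A3, P.C3, P.E3]

/-- positive and algebraically independent lengths -/
def Good (P : Par) : Prop := (∀ e, 0 < P.d e) ∧ AlgebraicIndependent ℚ P.d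

/-- exchange of the indices 2 and 3 -/
def Par.swap (P : Par) : Par :=
  ⟨P.A0, P.C0, P.B3, P.B2, P.A1, P.F3, P.F2, P.A3, P.C3, P.E3, P.A2, P.C2, P.E2⟩

/-- there is a complex realisation with real `D = |b0 b1|²` for which the triangle `a0 b0 b1` is not
Euclidean -/
def Sol (P : Par) : Prop :=
  ∃ D : ℝ, 0 < (P.A0 - P.C0 + D) ^ 2 - 4 * P.A0 * D ∧ ∃ z w : Fin 8 → ℂ,
    (∀ e, (z (ed e).1 - z (ed e).2) * (w (ed e).1 - w (ed e).2) = (P.d e : ℂ)) ∧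
    (z 5 - z 4) * (w 5 - w 4) = (D : ℂ)

/-! ### the closing form -/

/-- zero iff (generically) there is a point with squared distances `A`, `A - k2`, `A - k3` from the
points `(0,0)`, `(x2,y2)`, `(x3,y3)` -/
def EE (A k2 k3 x2 y2 x3 y3 : ℂ) : ℂ :=
  ((k2 + x2 * y2) * x3 - (k3 + x3 * y3) * x2) * (y2 * (k3 + x3 * y3) - y3 * (k2 + x2 * y2)) -
    A * (y2 * x3 - x2 * y3) ^ 2

/-- a point of `ℙ¹ × ℙ¹`: `x = X / X'`, `y = Y / Y'` -/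
structure HPt where
  (X X' Y Y' : ℂ)

/-- the bihomogeneous closing form -/
def EH (A k2 k3 : ℂ) (P Q : HPt) : ℂ :=
  ((k2 * P.X' * P.Y' + P.X * P.Y) * Q.X * Q.Y' - (k3 * Q.X' * Q.Y' + Q.X * Q.Y) * P.X * P.Y') *
      (P.Y * P.X' * (k3 * Q.X' * Q.Y' + Q.X * Q.Y) - Q.Y * Q.X' * (k2 * P.X' * P.Y' + P.X * P.Y)) -
    A * (P.Y * P.X' * Q.X * Q.Y' - P.X * P.Y' * Q.Y * Q.X') ^ 2

/-- first position of `b_j`, `(u + B p / r, v + r / p)` -/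
noncomputable def hp1 (u v p q B r : ℂ) : HPt := ⟨u + B * p / r, 1, v * p + r, p⟩

/-- second position of `b_j`, `(u + r / q, v + B q / r)` -/
noncomputable def hp2 (u v p q B r : ℂ) : HPt := ⟨u * q + r, q, v + B * q / r, 1⟩

/-- a continuous square root of real numbers -/
noncomputable def sq (x : ℝ) : ℂ := (Real.sqrt x : ℂ) + Complex.I * (Real.sqrt (-x) : ℂ)

/-- the root of `r ^ 2 - (t + B - E) r + B t` with `r = B - E` for `t = 0` -/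
noncomputable def rc (B E t : ℝ) : ℂ :=
  (((t + (B - E) : ℝ) : ℂ) + (Real.sign (B - E) : ℂ) * sq ((t + (B - E)) ^ 2 - 4 * B * t)) / 2

/-- the product over the positions of `b2` and `b3`, with arbitrary roots `r2`, `r3` -/
noncomputable def Fr (P : Par) (u0 v0 u2 v2 u3 v3 r2 r3 : ℂ) : ℂ :=
  EH P.A1 (P.A1 - P.F2) (P.A1 - P.F3) (hp1 u0 v0 (u2 - u0) (v2 - v0) P.B2 r2)
      (hp1 u0 v0 (u3 - u0) (v3 - v0) P.B3 r3) *
    EH P.A1 (P.A1 - P.F2) (P.A1 - P.F3) (hp1 u0 v0 (u2 - u0) (v2 - v0) P.B2 r2)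
      (hp2 u0 v0 (u3 - u0) (v3 - v0) P.B3 r3) *
    EH P.A1 (P.A1 - P.F2) (P.A1 - P.F3) (hp2 u0 v0 (u2 - u0) (v2 - v0) P.B2 r2)
      (hp1 u0 v0 (u3 - u0) (v3 - v0) P.B3 r3) *
    EH P.A1 (P.A1 - P.F2) (P.A1 - P.F3) (hp2 u0 v0 (u2 - u0) (v2 - v0) P.B2 r2)
      (hp2 u0 v0 (u3 - u0) (v3 - v0) P.B3 r3)

/-- the product over the positions of `b2` and `b3`, for real positions of `a0, a2, a3` -/
noncomputable def Fh (P : Par) (u0 v0 u2 v2 u3 v3 : ℝ) : ℂ :=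
  Fr P u0 v0 u2 v2 u3 v3 (rc P.B2 P.E2 ((u2 - u0) * (v2 - v0))) (rc P.B3 P.E3 ((u3 - u0) * (v3 - v0)))

/-- the discriminant -/
def disc (A C D : ℝ) : ℝ := (A - C + D) ^ 2 - 4 * A * D

/-- the roots of `v ^ 2 - (A - C + D) v + A D`, `s = 1, -1` -/
noncomputable def rt (A C s D : ℝ) : ℝ := ((A - C + D) + s * Real.sqrt (disc A C D)) / 2

/-- the product on the sheet given by the signs `s0, s2, s3` -/
noncomputable def Fs (P : Par) (D s0 s2 s3 : ℝ) : ℂ :=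
  Fh P (rt P.A0 P.C0 (-s0) D / D) (rt P.A0 P.C0 s0 D) (rt P.A2 P.C2 (-s2) D / D) (rt P.A2 P.C2 s2 D)
    (rt P.A3 P.C3 (-s3) D / D) (rt P.A3 P.C3 s3 D)

/-- the product over the four sheets -/
noncomputable def PP (P : Par) (D : ℝ) : ℂ :=
  Fs P D 1 1 1 * Fs P D 1 1 (-1) * Fs P D 1 (-1) 1 * Fs P D 1 (-1) (-1)

/-- `D` is admissible: all `a_i` are real -/
def Adm (P : Par) (D : ℝ) : Prop :=
  0 ≤ disc P.A0 P.C0 D ∧ 0 ≤ disc P.A2 P.C2 D ∧ 0 ≤ disc P.A3 P.C3 D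

/-! ### piece TR: transcendence degree -/

/-- if 13 algebraically independent numbers are in the field generated by 13 numbers, then these are
algebraically independent -/
def S_tr : Prop := ∀ d s : Fin 13 → ℂ, AlgebraicIndependent ℚ d →
  (∀ i, d i ∈ IntermediateField.adjoin ℚ (Set.range s)) → AlgebraicIndependent ℚ s

/-- finiteness of generic fibres -/
def S_fin : Prop := ∀ (n : ℕ) (f : Fin n → MvPolynomial (Fin n) ℚ) (d : Fin n → ℂ),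
  AlgebraicIndependent ℚ d → {s : Fin n → ℂ | ∀ i, MvPolynomial.aeval s (f i) = d i}.Finite

/-! ### piece JAC: rigidity and independence of the lengths -/

def S_rigid : Prop := ∀ p : Fin 8 → Fin 2 → ℝ,
  AlgebraicIndependent ℚ (fun x : Fin 8 × Fin 2 => p x.1 x.2) →
    ∀ u : Fin 8 → Fin 2 → ℝ,
      (∀ i j, GG.Adj i j → ∑ k, (p i k - p j k) * (u i k - u j k) = 0) →
      ∀ i j, ∑ k, (p i k - p j k) * (u i k - u j k) = 0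

def S_ind : Prop := ∀ p : Fin 8 → Fin 2 → ℝ,
  AlgebraicIndependent ℚ (fun x : Fin 8 × Fin 2 => p x.1 x.2) →
    AlgebraicIndependent ℚ (fun e : Fin 13 => ∑ k, (p (ed e).1 k - p (ed e).2 k) ^ 2)

/-! ### piece NV: generic nonvanishing of the closing form -/

/-- ten of the lengths are in `K` -/
def Ten (P : Par) (K : IntermediateField ℚ ℂ) : Prop :=
  (P.A0 : ℂ) ∈ K ∧ (P.C0 : ℂ) ∈ K ∧ (P.A2 : ℂ) ∈ K ∧ (P.C2 : ℂ) ∈ K ∧ (P.A3 : ℂ) ∈ K ∧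
    (P.C3 : ℂ) ∈ K ∧ (P.B2 : ℂ) ∈ K ∧ (P.E2 : ℂ) ∈ K ∧ (P.B3 : ℂ) ∈ K ∧ (P.E3 : ℂ) ∈ K

def S_nv6 : Prop := ∀ P : Par, Good P → ∀ (W : Fin 6 → ℂ) (x2 y2 x3 y3 : ℂ),
  Ten P (IntermediateField.adjoin ℚ (Set.range W ∪ {x2, y2, x3, y3})) →
    EE P.A1 (P.A1 - P.F2) (P.A1 - P.F3) x2 y2 x3 y3 ≠ 0

def S_nv7 : Prop := ∀ P : Par, Good P → ∀ (W : Fin 7 → ℂ) (x2 y2 x3 y3 : ℂ),
  Ten P (IntermediateField.adjoin ℚ (Set.range W ∪ {x2, y2, x3, y3})) →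
    EE P.A1 (P.A1 - P.F2) (P.A1 - P.F3) x2 y2 x3 y3 = 0 → y2 * x3 - x2 * y3 ≠ 0

def S_nv7z : Prop := ∀ P : Par, Good P → ∀ (W : Fin 7 → ℂ) (x2 y2 x3 y3 : ℂ), x3 = 0 ∨ y3 = 0 →
  Ten P (IntermediateField.adjoin ℚ (Set.range W ∪ {x2, y2, x3, y3})) →
    EE P.A1 (P.A1 - P.F2) (P.A1 - P.F3) x2 y2 x3 y3 ≠ 0

def S_mv : Prop := ∀ P : Par, Good P → ∀ (W : Fin 8 → ℂ) (x2 y2 w0 : ℂ), w0 ≠ 0 →
  w0 ∈ IntermediateField.adjoin ℚ (Set.range W ∪ {x2, y2}) →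
  Ten P (IntermediateField.adjoin ℚ (Set.range W ∪ {x2, y2})) →
    y2 * (w0 * ((P.A1 - P.F2 : ℂ) + x2 * y2 - w0 * x2) - P.A1 * y2) ≠ 0

/-- no length is in the field generated by the others -/
def S_tf : Prop := ∀ P : Par, Good P → ∀ e : Fin 13,
  (P.d e : ℂ) ∉ IntermediateField.adjoin ℚ ((fun i => (P.d i : ℂ)) '' {e}ᶜ)

/-- a full solution in the gauge `b0 = (0,0)`, `b1 = (1,D)` has `v0 ≠ D u0` (so `disc_0 ≠ 0`), `D ≠ 0` -/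
def S_full : Prop := ∀ P : Par, Good P → ∀ D u0 v0 u1 v1 u2 v2 u3 v3 x2 y2 x3 y3 : ℂ,
  u0 * v0 = P.A0 → (u0 - 1) * (v0 - D) = P.C0 → (x2 - u0) * (y2 - v0) = P.B2 →
  (x3 - u0) * (y3 - v0) = P.B3 → u1 * v1 = P.A1 → (x2 - u1) * (y2 - v1) = P.F2 →
  (x3 - u1) * (y3 - v1) = P.F3 → u2 * v2 = P.A2 → (u2 - 1) * (v2 - D) = P.C2 →
  (x2 - u2) * (y2 - v2) = P.E2 → u3 * v3 = P.A3 → (u3 - 1) * (v3 - D) = P.C3 →
  (x3 - u3) * (y3 - v3) = P.E3 → v0 ≠ D * u0 ∧ D ≠ 0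

/-! ### piece NZ: no zeros without solution -/

def S_nz : Prop := ∀ P : Par, Good P → ¬ Sol P → ∀ D : ℝ, D ≠ 0 → Adm P D →
  ∀ s0 s2 s3 : ℝ, (s0 = 1 ∨ s0 = -1) → (s2 = 1 ∨ s2 = -1) → (s3 = 1 ∨ s3 = -1) →
    Fs P D s0 s2 s3 ≠ 0

/-! ### piece ALG: algebraic properties of the products -/

/-- the products are real -/
def S_real : Prop := ∀ P : Par, Good P → ∀ u0 v0 u2 v2 u3 v3 : ℝ, (Fh P u0 v0 u2 v2 u3 v3).im = 0

/-- other choices of the roots -/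
def S_root : Prop := ∀ P : Par, Good P → ∀ (u0 v0 u2 v2 u3 v3 : ℝ) (r2 r3 : ℂ),
  (u2 - u0) * (v2 - v0) ≠ 0 → (u3 - u0) * (v3 - v0) ≠ 0 →
  r2 ^ 2 - ((((u2 - u0) * (v2 - v0) + P.B2 - P.E2 : ℝ)) : ℂ) * r2 +
    ((P.B2 * ((u2 - u0) * (v2 - v0)) : ℝ) : ℂ) = 0 →
  r3 ^ 2 - ((((u3 - u0) * (v3 - v0) + P.B3 - P.E3 : ℝ)) : ℂ) * r3 +
    ((P.B3 * ((u3 - u0) * (v3 - v0)) : ℝ) : ℂ) = 0 →
  Fh P u0 v0 u2 v2 u3 v3 = Fr P u0 v0 u2 v2 u3 v3 r2 r3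

/-- exchange of the indices 2 and 3 -/
def S_sym : Prop := ∀ P : Par, (Good P → Good P.swap) ∧
  ∀ u0 v0 u2 v2 u3 v3 : ℝ, Fh P.swap u0 v0 u3 v3 u2 v2 = Fh P u0 v0 u2 v2 u3 v3

/-- exchange of the coordinates -/
def S_mir : Prop := ∀ P : Par, ∀ D s0 s2 s3 : ℝ, D ≠ 0 →
  Fs P D (-s0) (-s2) (-s3) = Fs P D s0 s2 s3

/-- continuity -/
def S_cont : Prop := ∀ P : Par, Good P → ∀ s0 s2 s3 : ℝ,
  ContinuousOn (fun D => Fs P D s0 s2 s3) {D : ℝ | D ≠ 0}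

/-! ### pieces ZERO and INF: the behaviour at `D = 0` and `D = ∞` -/

/-- the root near `A - C` for small `D` -/
noncomputable def kz (A C D : ℝ) : ℝ := rt A C (Real.sign (A - C)) D

/-- the root near `1` of `κ ^ 2 - (1 + (A - C) τ) κ + A τ` for small `τ` -/
noncomputable def ki (A C τ : ℝ) : ℝ :=
  ((1 + (A - C) * τ) + Real.sqrt ((1 + (A - C) * τ) ^ 2 - 4 * A * τ)) / 2

/-- all `a_i` of the same type at `D = 0`: no sign change -/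
def S_zOO : Prop := ∀ P : Par, Good P → ∃ H : ℝ → ℂ, ContinuousAt H 0 ∧ H 0 ≠ 0 ∧
  ∀ᶠ D in 𝓝[≠] (0 : ℝ), ∃ c : ℝ, 0 < c ∧
    Fh P (P.A0 / kz P.A0 P.C0 D) (kz P.A0 P.C0 D) (P.A2 / kz P.A2 P.C2 D) (kz P.A2 P.C2 D)
      (P.A3 / kz P.A3 P.C3 D) (kz P.A3 P.C3 D) = c * H D

/-- `a3` of the other type at `D = 0`: order `-4` -/
def S_zOQ : Prop := ∀ P : Par, Good P → ∃ H : ℝ → ℂ, ContinuousAt H 0 ∧ H 0 ≠ 0 ∧
  ∀ᶠ D in 𝓝[≠] (0 : ℝ), ∃ c : ℝ, 0 < c ∧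
    Fh P (P.A0 / kz P.A0 P.C0 D) (kz P.A0 P.C0 D) (P.A2 / kz P.A2 P.C2 D) (kz P.A2 P.C2 D)
      (kz P.A3 P.C3 D / D) (P.A3 * D / kz P.A3 P.C3 D) = c * (H D / (D : ℂ) ^ 4)

/-- `a2` and `a3` of the other type at `D = 0`: order `-3` -/
def S_zQQ : Prop := ∀ P : Par, Good P → ∃ H : ℝ → ℂ, ContinuousAt H 0 ∧ H 0 ≠ 0 ∧
  ∀ᶠ D in 𝓝[≠] (0 : ℝ), ∃ c : ℝ, 0 < c ∧
    Fh P (P.A0 / kz P.A0 P.C0 D) (kz P.A0 P.C0 D) (kz P.A2 P.C2 D / D) (P.A2 * D / kz P.A2 P.C2 D)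
      (kz P.A3 P.C3 D / D) (P.A3 * D / kz P.A3 P.C3 D) = c * (H D / (D : ℂ) ^ 3)

/-- all `a_i` of the same type at `D = ∞`, `τ = 1 / D`: order `-6` in `τ` -/
def S_iOO : Prop := ∀ P : Par, Good P → ∃ H : ℝ → ℂ, ContinuousAt H 0 ∧ H 0 ≠ 0 ∧
  ∀ᶠ τ in 𝓝[≠] (0 : ℝ), ∃ c : ℝ, 0 < c ∧
    Fh P (ki P.A0 P.C0 τ) (P.A0 / ki P.A0 P.C0 τ) (ki P.A2 P.C2 τ) (P.A2 / ki P.A2 P.C2 τ)
      (ki P.A3 P.C3 τ) (P.A3 / ki P.A3 P.C3 τ) = c * (H τ / (τ : ℂ) ^ 6)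

/-- `a3` of the other type at `D = ∞`: order `-5` in `τ` -/
def S_iOQ : Prop := ∀ P : Par, Good P → ∃ H : ℝ → ℂ, ContinuousAt H 0 ∧ H 0 ≠ 0 ∧
  ∀ᶠ τ in 𝓝[≠] (0 : ℝ), ∃ c : ℝ, 0 < c ∧
    Fh P (ki P.A0 P.C0 τ) (P.A0 / ki P.A0 P.C0 τ) (ki P.A2 P.C2 τ) (P.A2 / ki P.A2 P.C2 τ)
      (P.A3 * τ / ki P.A3 P.C3 τ) (ki P.A3 P.C3 τ / τ) = c * (H τ / (τ : ℂ) ^ 5)

/-- `a2` and `a3` of the other type at `D = ∞`: order `-2` in `τ` -/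
def S_iQQ : Prop := ∀ P : Par, Good P → ∃ H : ℝ → ℂ, ContinuousAt H 0 ∧ H 0 ≠ 0 ∧
  ∀ᶠ τ in 𝓝[≠] (0 : ℝ), ∃ c : ℝ, 0 < c ∧
    Fh P (ki P.A0 P.C0 τ) (P.A0 / ki P.A0 P.C0 τ) (P.A2 * τ / ki P.A2 P.C2 τ) (ki P.A2 P.C2 τ / τ)
      (P.A3 * τ / ki P.A3 P.C3 τ) (ki P.A3 P.C3 τ / τ) = c * (H τ / (τ : ℂ) ^ 2)

/-! ### piece ASM: signs of the product over the sheets -/

/-- sign change at `D = 0` -/
def S_zero : Prop := ∀ P : Par, Good P → ∃ δ : ℝ, 0 < δ ∧ ∀ D : ℝ, 0 < D → D < δ →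
  (PP P D).re * (PP P (-D)).re < 0

/-- no sign change at `D = ∞` -/
def S_inf : Prop := ∀ P : Par, Good P → ∃ R : ℝ, 0 < R ∧ ∀ D : ℝ, R ≤ D →
  0 < (PP P D).re * (PP P (-D)).re

/-- at the ends the product is a square -/
def S_end : Prop := ∀ P : Par, Good P → ¬ Sol P → ∀ D : ℝ, D ≠ 0 → Adm P D →
  (disc P.A0 P.C0 D = 0 ∨ disc P.A2 P.C2 D = 0 ∨ disc P.A3 P.C3 D = 0) → 0 < (PP P D).re

/-- existence of the solution -/
def S_sol : Prop := ∀ P : Par, Good P → Sol P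

/-! ### piece FIN -/

/-- the frozen statement S06894 -/
def S_main : Prop :=
  ¬ (∀ (n : ℕ) (G : SimpleGraph (Fin n)),
    (∀ p : Fin n → Fin 2 → ℝ,
      AlgebraicIndependent ℚ (fun x : Fin n × Fin 2 => p x.1 x.2) →
      ∀ u : Fin n → Fin 2 → ℝ,
        (∀ i j, G.Adj i j → ∑ k, (p i k - p j k) * (u i k - u j k) = 0) →
        ∀ i j, ∑ k, (p i k - p j k) * (u i k - u j k) = 0) →
    ∃ p : Fin n → Fin 2 → ℝ,
      AlgebraicIndependent ℚ (fun x : Fin n × Fin 2 => p x.1 x.2) ∧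
      {D : Fin n → Fin n → ℝ | ∃ q : Fin n → Fin 2 → ℝ,
          (∀ i j, G.Adj i j → ∑ k, (q i k - q j k) ^ 2 = ∑ k, (p i k - p j k) ^ 2) ∧
          D = fun i j => ∑ k, (q i k - q j k) ^ 2}.ncard =
      {D : Fin n → Fin n → ℂ | ∃ q : Fin n → Fin 2 → ℂ,
          (∀ i j, G.Adj i j →
            ∑ k, (q i k - q j k) ^ 2 = ∑ k, ((p i k : ℂ) - (p j k : ℂ)) ^ 2) ∧
          D = fun i j => ∑ k, (q i k - q j k) ^ 2}.ncard)

end Pool.Agent.Z83K
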